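import Pool.Agent.Helper24.AL.St

/-! Project AL, module LAM6: the number of parameters for a fixed solution. -/

set_option autoImplicit false

namespace Pool.Agent.Helper28.AL

open Finset
open Pool.Agent.Helper24.AL

/-- the definition of `Lam` counts casts of natural numbers -/
theorem lam_eq_LAM6 (c : ℕ) (t b : Fin 3 → ℤ) [DecidablePred fun l : ℕ => Eqs c (l : ℤ) t b] :
    Lam c t b = ((Us c).filter fun l : ℕ => Eqs c (l : ℤ) t b).card := by
  classical
  unfold Lam
  have h : (do let a ← Us c; pure (a : ℤ) : Finset ℤ) = (Us c).image (fun a : ℕ => (a : ℤ)) := by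
    ext x
    simp only [Finset.bind_def, Finset.pure_def, Finset.mem_sup, Finset.mem_singleton,
      Finset.mem_image]
    constructor
    · rintro ⟨a, h1, h2⟩
      exact ⟨a, h1, h2.symm⟩
    · rintro ⟨a, h1, h2⟩
      exact ⟨a, h1, h2.symm⟩
  rw [h, Finset.filter_image, Finset.card_image_of_injective _ Nat.cast_injective]
  congr

/-- module LAM6 -/
theorem hLAM6 : StLAM6 := by
  classical
  intro c t b hc hpos
  set F : Finset ℕ := (Us c).filter fun l => Eqs c (l : ℤ) t b with hF
  have hLam : Lam c t b = F.card := by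
    rw [hF]
    exact lam_eq_LAM6 c t b
  rw [hLam] at hpos ⊢
  obtain ⟨l, hl⟩ := Finset.card_pos.1 hpos
  have hmem : ∀ l ∈ F, l < c ∧ Nat.Coprime l c ∧ Eqs c (l : ℤ) t b := by
    intro l hl
    rw [hF, Finset.mem_filter, Us, Finset.mem_filter, Finset.mem_range] at hl
    exact ⟨hl.1.1, hl.1.2, hl.2⟩
  obtain ⟨-, hco, h1, h2, h3⟩ := hmem l hl
  have hcoZ : IsCoprime (c : ℤ) (l : ℤ) := (Nat.isCoprime_iff_coprime.2 hco).symm
  refine ⟨?_, h1, ?_, ?_, ?_⟩
  · -- the count
    set P : ℤ := t 0 * t 1 * b 2 with hP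
    set Q : ℤ := t 2 * b 0 * b 1 with hQ
    set g : ℕ := Int.gcd (Int.gcd (sg t) (sg b)) c with hg
    have hgc : (g : ℤ) ∣ (c : ℤ) := Int.gcd_dvd_right _ _
    have hPl : ∀ l ∈ F, (c : ℤ) ∣ sg t + l * P ∧ (c : ℤ) ∣ sg b + l * Q := by
      intro l hl
      obtain ⟨-, -, -, a2, a3⟩ := hmem l hl
      exact ⟨a2 0 1 2 (by decide) (by decide) (by decide), a3 0 1 2 (by decide) (by decide) (by decide)⟩
    have hd : ((Int.gcd (Int.gcd P Q) c : ℕ) : ℤ) ∣ (g : ℤ) := by
      set d : ℕ := Int.gcd (Int.gcd P Q) c with hdd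
      have d1 : (d : ℤ) ∣ (c : ℤ) := Int.gcd_dvd_right _ _
      have d2 : (d : ℤ) ∣ P := (Int.gcd_dvd_left _ _).trans (Int.gcd_dvd_left _ _)
      have d3 : (d : ℤ) ∣ Q := (Int.gcd_dvd_left _ _).trans (Int.gcd_dvd_right _ _)
      obtain ⟨e1, e2⟩ := hPl l hl
      have f1 : (d : ℤ) ∣ sg t := by
        have := d1.trans e1
        exact (dvd_add_left (d2.mul_left _)).1 this
      have f2 : (d : ℤ) ∣ sg b := by
        have := d1.trans e2
        exact (dvd_add_left (d3.mul_left _)).1 this
      exact Int.dvd_coe_gcd (Int.dvd_coe_gcd f1 f2) d1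
    have hgpos : 0 < g := by
      rcases Nat.eq_zero_or_pos g with h0 | h0
      · rw [h0, Nat.cast_zero, zero_dvd_iff] at hgc
        have : c = 0 := by exact_mod_cast hgc
        omega
      · exact h0
    obtain ⟨n, hn⟩ := Int.natCast_dvd_natCast.1 hgc
    have hnpos : 0 < n := by
      rcases Nat.eq_zero_or_pos n with h0 | h0
      · rw [h0, mul_zero] at hn; omega
      · exact h0
    have hdiff : ∀ l ∈ F, ∀ l' ∈ F, (n : ℤ) ∣ (l : ℤ) - l' := by
      intro l hl l' hl'
      obtain ⟨e1, e2⟩ := hPl l hl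
      obtain ⟨e1', e2'⟩ := hPl l' hl'
      have a1 : (c : ℤ) ∣ ((l : ℤ) - l') * P := by
        have := dvd_sub e1 e1'
        rwa [show sg t + (l : ℤ) * P - (sg t + l' * P) = ((l : ℤ) - l') * P by ring] at this
      have a2 : (c : ℤ) ∣ ((l : ℤ) - l') * Q := by
        have := dvd_sub e2 e2'
        rwa [show sg b + (l : ℤ) * Q - (sg b + l' * Q) = ((l : ℤ) - l') * Q by ring] at this
      have a3 : (c : ℤ) ∣ ((l : ℤ) - l') * (Int.gcd P Q : ℤ) := by
        rw [Int.gcd_eq_gcd_ab, mul_add]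
        refine dvd_add ?_ ?_
        · rw [← mul_assoc]; exact a1.mul_right _
        · rw [← mul_assoc]; exact a2.mul_right _
      have a4 : (c : ℤ) ∣ ((l : ℤ) - l') * (Int.gcd (Int.gcd P Q) c : ℤ) := by
        rw [Int.gcd_eq_gcd_ab (Int.gcd P Q : ℤ) c, mul_add]
        refine dvd_add ?_ ?_
        · rw [← mul_assoc]; exact a3.mul_right _
        · rw [← mul_assoc, mul_assoc, mul_comm, mul_assoc]
          exact dvd_mul_right _ _
      have a5 : (c : ℤ) ∣ ((l : ℤ) - l') * (g : ℤ) := a4.trans (mul_dvd_mul_left _ hd)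
      rw [hn, Nat.cast_mul, mul_comm (g : ℤ)] at a5
      exact Int.dvd_of_mul_dvd_mul_right (by exact_mod_cast hgpos.ne') a5
    have hcard : F.card ≤ (Finset.range g).card := by
      refine Finset.card_le_card_of_injOn (fun l => l / n) ?_ ?_
      · intro x hx
        have hx1 := (hmem x hx).1
        rw [hn] at hx1
        rw [Finset.coe_range, Set.mem_Iio]
        exact Nat.div_lt_of_lt_mul (by rwa [mul_comm] at hx1)
      · intro x hx y hy hxy
        have h5 : x % n = y % n := by
          have := hdiff y hy x hx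
          exact (Nat.modEq_iff_dvd.2 this)
        simp only at hxy
        rw [← Nat.div_add_mod x n, ← Nat.div_add_mod y n, hxy, h5]
    rwa [Finset.card_range] at hcard
  · intro i
    have : t i * sg b - sg t * b i = (t i * b 0 - t 0 * b i) + (t i * b 1 - t 1 * b i) +
        (t i * b 2 - t 2 * b i) := by
      unfold sg; ring
    rw [this]
    exact dvd_add (dvd_add (h1 i 0) (h1 i 1)) (h1 i 2)
  · intro hs i j k hij hjk hik
    have := h2 i j k hij hjk hik
    rw [hs, zero_add] at this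
    exact hcoZ.dvd_of_dvd_mul_left this
  · intro hs i j k hij hjk hik
    have := h3 i j k hij hjk hik
    rw [hs, zero_add] at this
    exact hcoZ.dvd_of_dvd_mul_left this

end Pool.Agent.Helper28.AL
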